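import Pool.Agent.H43.G.R_seed8.H378R2.BH_MajGen
import Pool.Agent.H43.G.R_seed8.H300R2.FB.Defs

/-!
Team of helper300 (Bateman-Horn for almost all polynomials), task F7: major arcs mean value with
real arguments. Adaptation of Pool/Agent/H378R2/BH_MajGen.lean.
-/

set_option autoImplicit false

namespace Pool.Agent.H469R2.FB

open Finset MeasureTheory
open Pool.Agent.H469R2.NK (e norm_e)
open Pool.Agent.H442R2.EHI
open Pool.Agent.H442R2.EHI.MP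
open Pool.Agent.H378R2.BH (hat_bound')

open PlanchAux in
theorem planchQ (h : ℝ → ℂ) (hh : ContDiff ℝ (⊤ : ℕ∞) h) (hc : HasCompactSupport h) (T : Finset ℕ)
    (p : ℕ → ℝ) :
    ∫ s : ℝ, ‖∑ k ∈ T, (((p k) ^ (-(1 / 2) : ℝ) : ℝ) : ℂ) * h (s + Real.log (p k))‖ ^ 2 =
    ∫ ξ : ℝ, ‖∫ s : ℝ, h s * e (-(ξ * s))‖ ^ 2 *
      ‖∑ k ∈ T, (((p k) ^ (-(1 / 2) : ℝ) : ℝ) : ℂ) * e (ξ * Real.log (p k))‖ ^ 2 := by
  set G : ℝ → ℂ := fun s => ∑ k ∈ T, (((p k) ^ (-(1 / 2) : ℝ) : ℝ) : ℂ) * h (s + Real.log (p k))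
    with hG
  have hsm : ∀ a : ℝ, ContDiff ℝ (⊤ : ℕ∞) (fun s => h (s + a)) := fun a =>
    hh.comp (contDiff_id.add contDiff_const)
  have hcs : ∀ a : ℝ, HasCompactSupport (fun s => h (s + a)) := fun a =>
    hc.comp_homeomorph (Homeomorph.addRight a)
  have hint : ∀ a : ℝ, MeasureTheory.Integrable (fun s => h (s + a)) := fun a =>
    (hsm a).continuous.integrable_of_hasCompactSupport (hcs a)
  have hGs : ContDiff ℝ (⊤ : ℕ∞) G := by
    refine ContDiff.sum fun k _ => ?_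
    exact contDiff_const.mul (hsm _)
  have hGc : HasCompactSupport G := by
    rw [hG]
    clear hG hGs G
    induction T using Finset.induction_on with
    | empty =>
      simp only [Finset.sum_empty]
      exact (HasCompactSupport.zero : HasCompactSupport (0 : ℝ → ℂ))
    | insert a s ha ih =>
      simp only [Finset.sum_insert ha]
      exact ((hcs (Real.log (p a))).mul_left).add ih
  rw [← planch0 G hGs hGc]
  refine MeasureTheory.integral_congr_ae (Filter.Eventually.of_forall fun ξ => ?_)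
  simp only
  rw [← mul_pow, ← norm_mul]
  congr 2
  have hcont : Continuous (fun s : ℝ => e (-(ξ * s))) := by
    unfold Pool.Agent.H469R2.NK.e
    fun_prop
  have hI : ∀ a : ℝ, MeasureTheory.Integrable (fun s => h (s + a) * e (-(ξ * s))) := fun a =>
    ((hsm a).continuous.mul hcont).integrable_of_hasCompactSupport ((hcs a).mul_right)
  have h1 : ∀ a : ℝ, ∫ s : ℝ, h (s + a) * e (-(ξ * s)) = (∫ s : ℝ, h s * e (-(ξ * s))) * e (ξ * a) := by
    intro a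
    rw [← MeasureTheory.integral_add_right_eq_self (fun s => h s * e (-(ξ * s))) a,
      ← MeasureTheory.integral_mul_const]
    refine MeasureTheory.integral_congr_ae (Filter.Eventually.of_forall fun s => ?_)
    simp only
    rw [mul_assoc, ← Pool.Agent.H469R2.NK.e_add]
    congr 2
    ring
  simp only [hG, Finset.sum_mul]
  rw [MeasureTheory.integral_finsetSum]
  · rw [Finset.mul_sum]
    refine Finset.sum_congr rfl fun k _ => ?_
    simp only [mul_assoc]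
    rw [MeasureTheory.integral_const_mul, h1]
    ring
  · intro k _
    simp only [mul_assoc]
    exact (hI _).const_mul _


lemma I_leQ {N : ℕ} {θ : ℝ} {S : Finset ℤ} {c : ℤ → ℂ} {ρ : ℝ → ℝ} {s0 s1 : ℝ}
    {D K K1 : ℕ} (hD : 1 ≤ D) (hK1 : 1 ≤ K1) (hKK : K1 ≤ K) {T : Finset ℕ} {p : ℕ → ℝ}
    (hT : ∀ k ∈ T, (K1 : ℝ) ≤ p k ∧ p k ≤ K)
    (hs0 : s0 = Real.log (D * K1)) (hs1 : s1 = Real.log (2 * D * K))
    (hρc : ContDiff ℝ (⊤ : ℕ∞) ρ) (hρ1 : ∀ s ∈ Set.Icc s0 s1, ρ s = 1)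
    (h0 : ∀ s, s ≤ s0 - 1 → ρ s = 0) (h1 : ∀ s, s1 + 1 ≤ s → ρ s = 0)
    (hpl : ∫ s : ℝ, ‖∑ k ∈ T, (((p k) ^ (-(1 / 2) : ℝ) : ℝ) : ℂ) *
        hh N θ S c ρ (s + Real.log (p k))‖ ^ 2 =
      ∫ ξ : ℝ, ‖∫ s : ℝ, hh N θ S c ρ s * e (-(ξ * s))‖ ^ 2 *
        ‖∑ k ∈ T, (((p k) ^ (-(1 / 2) : ℝ) : ℝ) : ℂ) * e (ξ * Real.log (p k))‖ ^ 2) :
    ∫ u in (D : ℝ)..(2 * D), ‖∑ k ∈ T, poly N θ S c (u * p k)‖ ^ 2 ≤
      ∫ ξ : ℝ, ‖∫ s : ℝ, hh N θ S c ρ s * e (-(ξ * s))‖ ^ 2 *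
        ‖∑ k ∈ T, (((p k) ^ (-(1 / 2) : ℝ) : ℝ) : ℂ) * e (ξ * Real.log (p k))‖ ^ 2 := by
  have hD0 : (0:ℝ) < D := by exact_mod_cast hD
  have hK10 : (0:ℝ) < K1 := by exact_mod_cast hK1
  have hK0 : (0:ℝ) < K := lt_of_lt_of_le hK10 (by exact_mod_cast hKK)
  rw [← hpl]
  set F : ℝ → ℝ := fun u => ‖∑ k ∈ T, poly N θ S c (u * p k)‖ ^ 2 with hF
  have hFc : Continuous F := by
    refine Continuous.pow (Continuous.norm (continuous_finsetSum _ fun k _ => ?_)) 2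
    exact contDiff_poly.continuous.comp (continuous_id.mul continuous_const)
  set G : ℝ → ℂ := fun s => ∑ k ∈ T, (((p k) ^ (-(1 / 2) : ℝ) : ℝ) : ℂ) *
      hh N θ S c ρ (s + Real.log (p k)) with hG
  have hGc : Continuous G := by
    refine continuous_finsetSum _ fun k _ => continuous_const.mul ?_
    exact (contDiff_hh hρc).continuous.comp (continuous_id.add continuous_const)
  have hTk : ∀ k ∈ T, (K1:ℝ) ≤ p k ∧ (p k) ≤ K ∧ (0:ℝ) < p k := by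
    intro k hk
    have := hT k hk
    exact ⟨this.1, this.2, lt_of_lt_of_le hK10 this.1⟩
  have e1 : ∫ u in (D : ℝ)..(2 * D), F u =
      ∫ s in Real.log D..Real.log (2 * D), Real.exp s * F (Real.exp s) := by
    rw [exp_subst hFc, Real.exp_log hD0, Real.exp_log (by positivity)]
  have hle : Real.log D ≤ Real.log (2 * D) := Real.log_le_log hD0 (by linarith)
  have e2 : ∫ s in Real.log D..Real.log (2 * D), Real.exp s * F (Real.exp s) =
      ∫ s in Real.log D..Real.log (2 * D), ‖G s‖ ^ 2 := by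
    refine intervalIntegral.integral_congr fun s hs => ?_
    rw [Set.uIcc_of_le hle] at hs
    have hterm : ∀ k ∈ T, (((p k) ^ (-(1 / 2) : ℝ) : ℝ) : ℂ) *
        hh N θ S c ρ (s + Real.log (p k)) =
        ((Real.exp (s / 2) : ℝ) : ℂ) * poly N θ S c (Real.exp s * p k) := by
      intro k hk
      obtain ⟨hk1, hk2, hk0⟩ := hTk k hk
      have hmem : s + Real.log (p k) ∈ Set.Icc s0 s1 := by
        rw [hs0, hs1]
        constructor
        · rw [Real.log_mul hD0.ne' hK10.ne']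
          have := Real.log_le_log hK10 hk1
          linarith [hs.1]
        · rw [Real.log_mul (by positivity) hK0.ne']
          have := Real.log_le_log hk0 hk2
          linarith [hs.2]
      unfold hh
      rw [hρ1 _ hmem, Real.exp_add, Real.exp_log hk0, mul_one, ← mul_assoc, ← Complex.ofReal_mul]
      congr 2
      rw [add_div, Real.exp_add]
      have : Real.exp (Real.log (p k) / 2) = (p k) ^ (1 / 2 : ℝ) := by
        rw [Real.rpow_def_of_pos hk0]; congr 1; ring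
      rw [this]
      have h3 : (p k) ^ (-(1 / 2) : ℝ) * (p k) ^ (1 / 2 : ℝ) = 1 := by
        rw [← Real.rpow_add hk0]; norm_num
      linear_combination Real.exp (s / 2) * h3
    simp only [hF, hG]
    rw [sum_congr rfl hterm, ← mul_sum, norm_mul, mul_pow, Complex.norm_real, Real.norm_eq_abs,
      sq_abs, ← Real.exp_nat_mul]
    congr 2
    push_cast; ring
  rw [e1, e2, intervalIntegral.integral_of_le hle]
  apply setIntegral_le_integral
  · apply Continuous.integrable_of_hasCompactSupport ((hGc.norm).pow 2)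
    refine HasCompactSupport.intro
      (K := Set.Icc (s0 - 1 - Real.log K) (s1 + 1 - Real.log K1)) isCompact_Icc ?_
    intro s hs
    have : G s = 0 := by
      refine sum_eq_zero fun k hk => ?_
      obtain ⟨hk1, hk2, hk0⟩ := hTk k hk
      rw [hh_supp h0 h1, mul_zero]
      intro hm
      apply hs
      have a1 := Real.log_le_log hK10 hk1
      have a2 := Real.log_le_log hk0 hk2
      exact ⟨by linarith [hm.1], by linarith [hm.2]⟩
    simp [this]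
  · exact Filter.Eventually.of_forall fun s => by positivity


lemma J_leQ {N : ℕ} {θ : ℝ} {S : Finset ℤ} {c : ℤ → ℂ} {D G G1 K : ℕ} {T : Finset ℕ} {p : ℕ → ℝ}
    (hG1 : 1 ≤ G1) (hT : ∀ k ∈ T, (G1 : ℝ) ≤ p k ∧ p k ≤ G) (hTK : T.card ≤ K) (hDK : 2 * D * G ≤ N) :
    ∫ u in (D : ℝ)..(2 * D), ‖deriv (fun u : ℝ => ∑ k ∈ T, poly N θ S c (u * p k)) u‖ ^ 2 ≤
      (K:ℝ) ^ 2 * G * ∫ y in (0:ℝ)..N, ‖deriv (poly N θ S c) y‖ ^ 2 := by
  have hφ' : Continuous fun y => ‖deriv (poly N θ S c) y‖ ^ 2 :=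
    ((contDiff_poly.continuous_deriv (by simp)).norm).pow 2
  set B := ∫ y in (0:ℝ)..N, ‖deriv (poly N θ S c) y‖ ^ 2 with hB
  have hB0 : 0 ≤ B := intervalIntegral.integral_nonneg (by positivity) fun y _ => by positivity
  have hder : ∀ u : ℝ, deriv (fun u : ℝ => ∑ k ∈ T, poly N θ S c (u * p k)) u =
      ∑ k ∈ T, ((p k : ℝ) : ℂ) * deriv (poly N θ S c) (u * p k) := by
    intro u
    have : HasDerivAt (fun u : ℝ => ∑ k ∈ T, poly N θ S c (u * p k))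
        (∑ k ∈ T, ((p k : ℝ) : ℂ) * deriv (poly N θ S c) (u * p k)) u := by
      refine HasDerivAt.fun_sum fun k _ => ?_
      have hp : HasDerivAt (poly N θ S c) (deriv (poly N θ S c) (u * p k)) (u * p k) :=
        ((contDiff_poly.differentiable (by simp)) _).hasDerivAt
      have hm : HasDerivAt (fun u : ℝ => u * p k) (p k) u := by
        simpa using (hasDerivAt_id u).mul_const (p k)
      have := HasDerivAt.scomp u hp hm
      rw [Complex.real_smul] at this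
      exact this
    exact this.deriv
  have hD0 : (D:ℝ) ≤ 2 * D := by have : (0:ℝ) ≤ D := by positivity
                                 linarith
  have hcard : (T.card : ℝ) ≤ K := by exact_mod_cast hTK
  have hpt : ∀ u : ℝ, ‖∑ k ∈ T, ((p k : ℝ) : ℂ) * deriv (poly N θ S c) (u * p k)‖ ^ 2 ≤
      (K:ℝ) * ∑ k ∈ T, (p k) ^ 2 * ‖deriv (poly N θ S c) (u * p k)‖ ^ 2 := by
    intro u
    calc ‖∑ k ∈ T, ((p k : ℝ) : ℂ) * deriv (poly N θ S c) (u * p k)‖ ^ 2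
        ≤ (∑ k ∈ T, ‖((p k : ℝ) : ℂ) * deriv (poly N θ S c) (u * p k)‖) ^ 2 :=
          pow_le_pow_left₀ (norm_nonneg _) (norm_sum_le _ _) 2
      _ ≤ T.card * ∑ k ∈ T, ‖((p k : ℝ) : ℂ) * deriv (poly N θ S c) (u * p k)‖ ^ 2 :=
          sq_sum_le_card_mul_sum_sq
      _ ≤ (K:ℝ) * ∑ k ∈ T, ‖((p k : ℝ) : ℂ) * deriv (poly N θ S c) (u * p k)‖ ^ 2 :=
          mul_le_mul_of_nonneg_right hcard (sum_nonneg fun k _ => by positivity)
      _ = _ := by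
          congr 1
          refine sum_congr rfl fun k _ => ?_
          rw [norm_mul, mul_pow, Complex.norm_real, Real.norm_eq_abs, sq_abs]
  simp_rw [hder]
  have hcont1 : ∀ k : ℕ, Continuous fun u : ℝ =>
      (p k) ^ 2 * ‖deriv (poly N θ S c) (u * p k)‖ ^ 2 := fun k =>
    continuous_const.mul (hφ'.comp (continuous_id.mul continuous_const))
  calc ∫ u in (D : ℝ)..(2 * D), ‖∑ k ∈ T, ((p k : ℝ) : ℂ) * deriv (poly N θ S c) (u * p k)‖ ^ 2
      ≤ ∫ u in (D : ℝ)..(2 * D), (K:ℝ) * ∑ k ∈ T, (p k) ^ 2 *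
          ‖deriv (poly N θ S c) (u * p k)‖ ^ 2 := by
        apply intervalIntegral.integral_mono_on hD0
        · apply Continuous.intervalIntegrable
          refine Continuous.pow (Continuous.norm (continuous_finsetSum _ fun k _ => ?_)) 2
          exact continuous_const.mul ((contDiff_poly.continuous_deriv (by simp)).comp
            (continuous_id.mul continuous_const))
        · apply Continuous.intervalIntegrable
          exact continuous_const.mul (continuous_finsetSum _ fun k _ => hcont1 k)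
        · exact fun u _ => hpt u
    _ = (K:ℝ) * ∑ k ∈ T, ∫ u in (D : ℝ)..(2 * D), (p k) ^ 2 *
          ‖deriv (poly N θ S c) (u * p k)‖ ^ 2 := by
        rw [intervalIntegral.integral_const_mul, intervalIntegral.integral_finsetSum]
        exact fun k _ => (hcont1 k).intervalIntegrable _ _
    _ ≤ (K:ℝ) * ∑ k ∈ T, (G:ℝ) * B := by
        apply mul_le_mul_of_nonneg_left _ (by positivity)
        refine sum_le_sum fun k hk => ?_
        have hG10 : (0:ℝ) < G1 := by exact_mod_cast hG1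
        have hk0 : (0:ℝ) < p k := lt_of_lt_of_le hG10 (hT k hk).1
        have hkK : (p k) ≤ G := (hT k hk).2
        rw [intervalIntegral.integral_const_mul,
          intervalIntegral.integral_comp_mul_right (fun y => ‖deriv (poly N θ S c) y‖ ^ 2) hk0.ne',
          smul_eq_mul]
        have h1 : ∫ y in (D:ℝ) * p k..(2 * D) * p k, ‖deriv (poly N θ S c) y‖ ^ 2 ≤ B := by
          apply int_mono_interval hφ' (fun y => by positivity) (by positivity)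
          · nlinarith
          · have h2 : ((2 * D * G : ℕ) : ℝ) ≤ N := by exact_mod_cast hDK
            push_cast at h2
            calc (2 * (D:ℝ)) * p k ≤ (2 * D) * G := by
                  apply mul_le_mul_of_nonneg_left hkK (by positivity)
              _ ≤ N := h2
        calc (p k) ^ 2 * ((p k)⁻¹ * ∫ y in (D:ℝ) * p k..(2 * D) * p k,
              ‖deriv (poly N θ S c) y‖ ^ 2)
            = p k * ∫ y in (D:ℝ) * p k..(2 * D) * p k, ‖deriv (poly N θ S c) y‖ ^ 2 := by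
              field_simp
          _ ≤ G * B := by
              apply mul_le_mul hkK h1
              · exact intervalIntegral.integral_nonneg (by nlinarith) fun y _ => by positivity
              · positivity
    _ ≤ (K:ℝ) * ((K:ℝ) * ((G:ℝ) * B)) := by
        rw [sum_const, nsmul_eq_mul]
        apply mul_le_mul_of_nonneg_left _ (by positivity)
        exact mul_le_mul_of_nonneg_right hcard (by positivity)
    _ = _ := by ring


lemma P_leQ {G G1 K : ℕ} {T : Finset ℕ} {p : ℕ → ℝ} (hT : ∀ k ∈ T, (G1 : ℝ) ≤ p k ∧ p k ≤ G) (hG1 : 1 ≤ G1) (hTK : T.card ≤ K)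
    (ξ : ℝ) :
    ‖∑ k ∈ T, (((p k) ^ (-(1 / 2) : ℝ) : ℝ) : ℂ) * e (ξ * Real.log (p k))‖ ^ 2 ≤ (K : ℝ) ^ 2 / G1 := by
  have hG10 : (0:ℝ) < G1 := by exact_mod_cast hG1
  have hcard : (T.card : ℝ) ≤ K := by exact_mod_cast hTK
  have h1 : ‖∑ k ∈ T, (((p k) ^ (-(1 / 2) : ℝ) : ℝ) : ℂ) * e (ξ * Real.log (p k))‖ ≤
      K * (G1 : ℝ) ^ (-(1 / 2) : ℝ) := by
    calc ‖∑ k ∈ T, (((p k) ^ (-(1 / 2) : ℝ) : ℝ) : ℂ) * e (ξ * Real.log (p k))‖
        ≤ ∑ k ∈ T, (G1 : ℝ) ^ (-(1 / 2) : ℝ) := by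
          refine (norm_sum_le _ _).trans (sum_le_sum fun k hk => ?_)
          have h2 : (G1:ℝ) ≤ p k := (hT k hk).1
          have h3 : 0 < p k := lt_of_lt_of_le hG10 h2
          rw [norm_mul, norm_e, mul_one, Complex.norm_real, Real.norm_eq_abs,
            abs_of_nonneg (by positivity)]
          exact Real.rpow_le_rpow_of_nonpos hG10 h2 (by norm_num)
      _ = T.card * (G1 : ℝ) ^ (-(1 / 2) : ℝ) := by rw [sum_const, nsmul_eq_mul]
      _ ≤ _ := mul_le_mul_of_nonneg_right hcard (by positivity)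
  have h3 : ((G1 : ℝ) ^ (-(1 / 2) : ℝ)) ^ 2 = 1 / G1 := by
    rw [← Real.rpow_natCast, ← Real.rpow_mul hG10.le]
    norm_num
    exact Real.rpow_neg_one _
  calc _ ≤ (K * (G1 : ℝ) ^ (-(1 / 2) : ℝ)) ^ 2 := pow_le_pow_left₀ (norm_nonneg _) h1 2
    _ = (K:ℝ) ^ 2 / G1 := by rw [mul_pow, h3]; ring


/-- The core for one value of the parameters. -/
lemma core_genQ {C C5 : ℝ} (hC : 0 < C) (hC5 : 0 < C5)
    (hcut : ∀ s0 s1 : ℝ, s0 ≤ s1 → ∃ ρ : ℝ → ℝ,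
      ContDiff ℝ (⊤ : ℕ∞) ρ ∧ (∀ s, 0 ≤ ρ s ∧ ρ s ≤ 1) ∧ (∀ s ∈ Set.Icc s0 s1, ρ s = 1) ∧
      (∀ s, s ≤ s0 - 1 → ρ s = 0) ∧ (∀ s, s1 + 1 ≤ s → ρ s = 0) ∧ (∀ s, |deriv ρ s| ≤ C) ∧
      (∀ ξ γ : ℝ, ‖∫ s : ℝ, (((Real.exp (s / 2) * ρ s : ℝ) : ℂ) * e (-(ξ * s))) *
        e (-(Real.exp s * γ))‖ ≤ C * Real.exp (s1 / 2)) ∧
      (∀ ξ γ : ℝ, γ ≠ 0 → ‖∫ s : ℝ, (((Real.exp (s / 2) * ρ s : ℝ) : ℂ) * e (-(ξ * s))) *
        e (-(Real.exp s * γ))‖ ≤ C * (1 + |ξ|) ^ 2 * Real.exp (-(3 / 2) * s0) / γ ^ 2))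
    (h5 : ∀ (S : Finset ℤ) (θ : ℝ),
      ∑ h ∈ S.filter (fun h : ℤ => 1 ≤ |(h : ℝ) + θ|), 1 / ((h : ℝ) + θ) ^ 2 ≤ C5)
    {x N D G G1 K : ℕ} {L δ : ℝ} {E0 E2 E3 E4 E5 U : ℕ}
    (hE3 : E3 = 5 * E4 + 3 * E0 + 4 * E2 + 2 * U + 2 * E5 + 20) (hL : 15 ≤ L)
    (hL2 : 8 * (360000 * C ^ 2 + 2560000 * (C ^ 2 * C5)) ≤ L)
    (hx : 1 ≤ x)
    (hxL : 4 * (2 * (1 / 2 + C) ^ 2 + 800000) * L ^ (E2 + 2 * U + 2 * E5 + 8) ≤ (x : ℝ) ^ 2)
    (hN1 : 8 * x ≤ N) (hN2 : N ≤ 100 * x) (hD : 1 ≤ D) (hG1 : 1 ≤ G1) (hGG : G1 ≤ G)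
    (hDG : D * G ≤ x) (hxDG : (x : ℝ) ≤ D * G * L ^ E0)
    (hGG1 : (G : ℝ) ≤ G1 * L ^ E2) {θ : ℝ} {S : Finset ℤ} {c : ℤ → ℂ}
    (hδ0 : 0 ≤ δ) (hδ1 : δ ≤ 1) (hδG : δ * G ≤ L ^ E5)
    (hδ : ∀ h ∈ S, |((h : ℝ) + θ) / N| ≤ δ)
    (hV : (N : ℝ) * ∑ h ∈ S, ‖c h‖ ^ 2 ≤ x * L ^ 2)
    (hsm : ∀ h ∈ S, |((h : ℝ) + θ) / N| ≤ L ^ E3 / x → (N : ℝ) * ‖c h‖ ≤ x / L ^ (2 * E3))
    {T : Finset ℕ} {p : ℕ → ℝ} (hT : ∀ k ∈ T, (G1 : ℝ) ≤ p k ∧ p k ≤ G) (hTK : T.card ≤ K)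
    (hks : ∀ ξ : ℝ, L ^ E4 ≤ |ξ| → |ξ| ≤ (x : ℝ) ^ 2 →
      ‖∑ k ∈ T, (((p k) ^ (-(1 / 2) : ℝ) : ℝ) : ℂ) * e (ξ * Real.log (p k))‖ ^ 2 ≤
        ((K : ℝ) ^ 2 / G) / L ^ (2 * U + 2 * E5 + 10)) :
    ∑ d ∈ Ioc D (2 * D), ‖∑ k ∈ T, poly N θ S c ((d : ℝ) * p k)‖ ^ 2 ≤
      x * ((K : ℝ) ^ 2 / G) / L ^ U := by
  have hx0 : (0:ℝ) < x := by exact_mod_cast hx
  have hx1 : (1:ℝ) ≤ x := by exact_mod_cast hx
  have hD0 : (0:ℝ) < D := by exact_mod_cast hD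
  have hG : 1 ≤ G := hG1.trans hGG
  have hG0 : (0:ℝ) < G := by exact_mod_cast hG
  have hG10 : (0:ℝ) < G1 := by exact_mod_cast hG1
  have hGG' : (G1:ℝ) ≤ G := by exact_mod_cast hGG
  have hN1' : 8 * (x:ℝ) ≤ N := by exact_mod_cast hN1
  have hN2' : (N:ℝ) ≤ 100 * x := by exact_mod_cast hN2
  have hN0 : (0:ℝ) < N := by linarith
  have hNN : 1 ≤ N := by omega
  have hDG' : (D:ℝ) * G ≤ x := by exact_mod_cast hDG
  have hL0 : 0 < L := by linarith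
  have hL1 : 1 ≤ L := by linarith
  have hLp : ∀ n : ℕ, 1 ≤ L ^ n := fun n => one_le_pow₀ hL1
  have hLp0 : ∀ n : ℕ, 0 < L ^ n := fun n => by positivity
  set V : ℝ := (K : ℝ) ^ 2 / G with hVdef
  have hV00 : 0 ≤ V := by positivity
  have hPb : (K : ℝ) ^ 2 / G1 ≤ V * L ^ E2 := by
    rw [hVdef, div_mul_eq_mul_div, div_le_div_iff₀ hG10 hG0, mul_assoc]
    apply mul_le_mul_of_nonneg_left _ (by positivity)
    linarith
  have e4 : (x : ℝ) ≤ 2 * L ^ (E0 + E2) * (D * G1) := by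
    calc (x:ℝ) ≤ D * G * L ^ E0 := hxDG
      _ ≤ D * (G1 * L ^ E2) * L ^ E0 := by gcongr
      _ = L ^ (E0 + E2) * (D * G1) := by rw [pow_add]; ring
      _ ≤ 2 * (L ^ (E0 + E2) * (D * G1)) := by
          have : 0 ≤ L ^ (E0 + E2) * (D * G1) := by positivity
          linarith
      _ = _ := by ring
  set s0 := Real.log (D * G1) with hs0
  set s1 := Real.log (2 * D * G) with hs1
  have hs : s0 ≤ s1 := by
    rw [hs0, hs1]
    apply Real.log_le_log (by positivity)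
    calc (D:ℝ) * G1 ≤ D * G := mul_le_mul_of_nonneg_left hGG' hD0.le
      _ ≤ 2 * D * G := by nlinarith [mul_pos hD0 hG0]
  obtain ⟨ρ, hρc, hρ, hρ1, h0, h1, hdρ, hΨ1, hΨ2⟩ := hcut s0 s1 hs
  have hexp : Real.exp (s1 + 1) ≤ N := by
    rw [Real.exp_add, hs1, Real.exp_log (by positivity)]
    have := Real.exp_one_lt_d9
    calc 2 * (D:ℝ) * G * Real.exp 1 ≤ 2 * (D:ℝ) * G * 3 := by
          apply mul_le_mul_of_nonneg_left _ (by positivity)
          linarith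
      _ = 6 * (D * G) := by ring
      _ ≤ N := by linarith
  -- the two integrals of the polynomial
  have hV0 : ∫ y in (0:ℝ)..N, ‖poly N θ S c y‖ ^ 2 ≤ x * L ^ 2 := by
    rw [poly_sq N hNN θ S c]; exact hV
  have hpi : (2 * Real.pi) ^ 2 ≤ 40 := by
    have := Real.pi_lt_d2
    have h3 := Real.pi_pos
    nlinarith
  have hB : ∫ y in (0:ℝ)..N, ‖deriv (poly N θ S c) y‖ ^ 2 ≤ 40 * δ ^ 2 * (x * L ^ 2) := by
    refine (poly_deriv N hNN θ S c δ hδ).2.trans ?_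
    have h2 : (2 * Real.pi * δ) ^ 2 ≤ 40 * δ ^ 2 := by
      rw [mul_pow]
      exact mul_le_mul_of_nonneg_right hpi (by positivity)
    exact mul_le_mul h2 hV (by positivity) (by positivity)
  -- the function h
  have hhc : ContDiff ℝ (⊤ : ℕ∞) (hh N θ S c ρ) := contDiff_hh hρc
  have hhs : HasCompactSupport (hh N θ S c ρ) := hasCompactSupport_hh h0 h1
  have hpl := planchQ (hh N θ S c ρ) hhc hhs T p
  obtain ⟨hgi, hge, hgt⟩ := planch_tail (hh N θ S c ρ) hhc hhs ((x:ℝ) ^ 2) (by positivity)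
  have hI1 := I_leQ (N := N) (θ := θ) (S := S) (c := c) hD hG1 hGG hT hs0 hs1 hρc hρ1 h0 h1 hpl
  have hH : ∫ s, ‖hh N θ S c ρ s‖ ^ 2 ≤ x * L ^ 2 :=
    (int_hh hs hρc hρ h0 h1 hexp).trans hV0
  have hH' : ∫ s, ‖deriv (hh N θ S c ρ) s‖ ^ 2 ≤
      (2 * (1 / 2 + C) ^ 2 + 800000) * ((x:ℝ) ^ 3 * L ^ 2) := by
    refine (int_deriv_hh hs hρc hρ h0 h1 hexp hdρ).trans ?_
    have a1 : 2 * (1 / 2 + C) ^ 2 * (∫ y in (0:ℝ)..N, ‖poly N θ S c y‖ ^ 2) ≤
        2 * (1 / 2 + C) ^ 2 * ((x:ℝ) ^ 3 * L ^ 2) := by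
      apply mul_le_mul_of_nonneg_left _ (by positivity)
      refine hV0.trans (mul_le_mul_of_nonneg_right ?_ (by positivity))
      exact le_self_pow₀ hx1 (by norm_num)
    have a2 : 2 * (N:ℝ) ^ 2 * ∫ y in (0:ℝ)..N, ‖deriv (poly N θ S c) y‖ ^ 2 ≤
        800000 * ((x:ℝ) ^ 3 * L ^ 2) := by
      have b1 : ∫ y in (0:ℝ)..N, ‖deriv (poly N θ S c) y‖ ^ 2 ≤ 40 * (x * L ^ 2) := by
        refine hB.trans ?_
        have : δ ^ 2 ≤ 1 := pow_le_one₀ hδ0 hδ1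
        apply mul_le_mul_of_nonneg_right _ (by positivity)
        linarith
      have b2 : (N:ℝ) ^ 2 ≤ (100 * x) ^ 2 := pow_le_pow_left₀ hN0.le hN2' 2
      calc 2 * (N:ℝ) ^ 2 * ∫ y in (0:ℝ)..N, ‖deriv (poly N θ S c) y‖ ^ 2
          ≤ 2 * (N:ℝ) ^ 2 * (40 * (x * L ^ 2)) := mul_le_mul_of_nonneg_left b1 (by positivity)
        _ ≤ 2 * (100 * (x:ℝ)) ^ 2 * (40 * (x * L ^ 2)) := by
            apply mul_le_mul_of_nonneg_right _ (by positivity)
            linarith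
        _ = _ := by ring
    calc _ ≤ 2 * (1 / 2 + C) ^ 2 * ((x:ℝ) ^ 3 * L ^ 2) + 800000 * ((x:ℝ) ^ 3 * L ^ 2) :=
          add_le_add a1 a2
      _ = _ := by ring
  set C6 : ℝ := 360000 * C ^ 2 + 2560000 * (C ^ 2 * C5) with hC6
  have hC60 : 0 < C6 := by positivity
  set Cd : ℝ := 2 * (1 / 2 + C) ^ 2 + 800000 with hCd
  have hCd0 : 0 < Cd := by positivity
  set H2 : ℝ := C6 * (x * L ^ (2 + 4 * E4 + 3 * (E0 + E2)) / L ^ (2 * E3)) with hH2
  have hH20 : 0 ≤ H2 := by positivity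
  have hI2 : ∫ ξ : ℝ, ‖∫ s : ℝ, hh N θ S c ρ s * e (-(ξ * s))‖ ^ 2 *
        ‖∑ k ∈ T, (((p k) ^ (-(1 / 2) : ℝ) : ℝ) : ℂ) * e (ξ * Real.log (p k))‖ ^ 2 ≤
      2 * L ^ E4 * (H2 * (V * L ^ E2)) +
        V / L ^ (2 * U + 2 * E5 + 10) *
          (∫ ξ : ℝ, ‖∫ s : ℝ, hh N θ S c ρ s * e (-(ξ * s))‖ ^ 2) +
        V * L ^ E2 * ∫ ξ in {ξ : ℝ | (x:ℝ) ^ 2 < |ξ|},
          ‖∫ s : ℝ, hh N θ S c ρ s * e (-(ξ * s))‖ ^ 2 := by
    refine three_ranges (by positivity) (fun ξ => by positivity) (fun ξ => by positivity) hgi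
      (by positivity) (by positivity) (by positivity) ?_ ?_ ?_
    · intro ξ hξ
      have := hat_bound' (N := N) (θ := θ) (S := S) (c := c) hC hC5 h5 hL1 hx hN1 hN2 hD hG1 hG hDG
        e4 hs0 hs1 hρc h0 h1 hΨ1 hΨ2 hV hsm ξ hξ.le
      exact mul_le_mul this ((P_leQ hT hG1 hTK ξ).trans hPb) (by positivity) hH20
    · intro ξ h2 h3
      rw [mul_comm]
      exact mul_le_mul_of_nonneg_right (hks ξ h2 h3) (by positivity)
    · intro ξ _
      rw [mul_comm]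
      exact mul_le_mul_of_nonneg_right ((P_leQ hT hG1 hTK ξ).trans hPb) (by positivity)
  set A : ℝ := x * V with hA
  have hA0 : 0 ≤ A := by positivity
  set W : ℕ := 2 * U + 2 * E5 + 6 with hW
  have hI3 : ∫ ξ : ℝ, ‖∫ s : ℝ, hh N θ S c ρ s * e (-(ξ * s))‖ ^ 2 *
        ‖∑ k ∈ T, (((p k) ^ (-(1 / 2) : ℝ) : ℝ) : ℂ) * e (ξ * Real.log (p k))‖ ^ 2 ≤
      A / L ^ W := by
    have b1 : 2 * L ^ E4 * (H2 * (V * L ^ E2)) ≤ A / L ^ W / 4 := by
      have c1 : 2 * L ^ E4 * (H2 * (V * L ^ E2)) = 2 * C6 *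
          (A * L ^ (2 + 5 * E4 + 3 * E0 + 4 * E2) / L ^ (2 * E3)) := by
        rw [hH2, hA]
        have : L ^ (2 + 5 * E4 + 3 * E0 + 4 * E2) =
            L ^ E4 * L ^ (2 + 4 * E4 + 3 * (E0 + E2)) * L ^ E2 := by
          rw [← pow_add, ← pow_add]; congr 1; ring
        rw [this]
        ring
      rw [c1, le_div_iff₀ (by norm_num : (0:ℝ) < 4), le_div_iff₀ (hLp0 _)]
      have c2 : L ^ (2 * E3) = L ^ (2 + 5 * E4 + 3 * E0 + 4 * E2) * L ^ W * L *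
          L ^ (5 * E4 + 3 * E0 + 4 * E2 + 2 * U + 2 * E5 + 31) := by
        rw [← pow_add, ← pow_succ, ← pow_add, hE3, hW]
        congr 1
        ring
      have c3 : 2 * C6 * (A * L ^ (2 + 5 * E4 + 3 * E0 + 4 * E2) / L ^ (2 * E3)) * 4 * L ^ W =
          A * (8 * C6 / (L * L ^ (5 * E4 + 3 * E0 + 4 * E2 + 2 * U + 2 * E5 + 31))) := by
        rw [c2]
        have := hLp0 (2 + 5 * E4 + 3 * E0 + 4 * E2)
        have := hLp0 W
        have := hLp0 (5 * E4 + 3 * E0 + 4 * E2 + 2 * U + 2 * E5 + 31)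
        field_simp
        ring
      rw [c3]
      apply mul_le_of_le_one_right hA0
      rw [div_le_one (by positivity)]
      calc 8 * C6 ≤ L := hL2
        _ ≤ _ := le_mul_of_one_le_right hL0.le (hLp _)
    have b2 : V / L ^ (2 * U + 2 * E5 + 10) *
        (∫ ξ : ℝ, ‖∫ s : ℝ, hh N θ S c ρ s * e (-(ξ * s))‖ ^ 2) ≤ A / L ^ W / 4 := by
      rw [hge]
      calc V / L ^ (2 * U + 2 * E5 + 10) * ∫ s, ‖hh N θ S c ρ s‖ ^ 2
          ≤ V / L ^ (2 * U + 2 * E5 + 10) * (x * L ^ 2) :=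
            mul_le_mul_of_nonneg_left hH (by positivity)
        _ = A / L ^ W / L ^ 2 := by
            have : L ^ (2 * U + 2 * E5 + 10) = L ^ W * (L ^ 2 * L ^ 2) := by
              rw [hW, ← pow_add, ← pow_add]
            rw [this, hA]
            have := hLp0 W
            field_simp
        _ ≤ A / L ^ W / 4 := by
            apply div_le_div_of_nonneg_left (by positivity) (by norm_num)
            nlinarith
    have b3 : V * L ^ E2 * ∫ ξ in {ξ : ℝ | (x:ℝ) ^ 2 < |ξ|},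
          ‖∫ s : ℝ, hh N θ S c ρ s * e (-(ξ * s))‖ ^ 2 ≤ A / L ^ W / 4 := by
      calc V * L ^ E2 * ∫ ξ in {ξ : ℝ | (x:ℝ) ^ 2 < |ξ|},
            ‖∫ s : ℝ, hh N θ S c ρ s * e (-(ξ * s))‖ ^ 2
          ≤ V * L ^ E2 * (1 / ((x:ℝ) ^ 2) ^ 2 * (Cd * ((x:ℝ) ^ 3 * L ^ 2))) := by
            apply mul_le_mul_of_nonneg_left _ (by positivity)
            refine hgt.trans (mul_le_mul_of_nonneg_left hH' (by positivity))
        _ = V * L ^ E2 * (Cd * L ^ 2 / x) := by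
            field_simp
        _ ≤ A / L ^ W / 4 := by
            rw [le_div_iff₀ (by norm_num : (0:ℝ) < 4), le_div_iff₀ (hLp0 _), hA]
            have c4 : V * L ^ E2 * (Cd * L ^ 2 / x) * 4 * L ^ W =
                V * ((4 * Cd * L ^ (E2 + 2 * U + 2 * E5 + 8)) / x) := by
              have : L ^ (E2 + 2 * U + 2 * E5 + 8) = L ^ E2 * L ^ 2 * L ^ W := by
                rw [hW, ← pow_add, ← pow_add]; congr 1; ring
              rw [this]
              ring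
            rw [c4, mul_comm (x:ℝ)]
            apply mul_le_mul_of_nonneg_left _ hV00
            rw [div_le_iff₀ hx0]
            calc _ ≤ _ := hxL
              _ = _ := by ring
    have b4 : 0 ≤ A / L ^ W / 4 := by positivity
    linarith
  -- Sobolev
  set g : ℝ → ℂ := fun u => ∑ k ∈ T, poly N θ S c (u * p k) with hg
  have hgc : ContDiff ℝ 1 g := by
    refine ContDiff.sum fun k _ => ?_
    have : ContDiff ℝ (⊤ : ℕ∞) fun u : ℝ => poly N θ S c (u * p k) :=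
      contDiff_poly.comp (contDiff_id.mul contDiff_const)
    exact this.of_le (by simp)
  have hsob := sobolev D hD g hgc
  set A' : ℝ := A * L ^ (2 * E5) with hA'
  have hA'0 : 0 ≤ A' := by positivity
  have hJ : ∫ u in (D : ℝ)..(2 * D), ‖deriv g u‖ ^ 2 ≤ 40 * A' * L ^ 2 := by
    have hDN : 2 * D * G ≤ N := by nlinarith
    refine (J_leQ (N := N) (θ := θ) (S := S) (c := c) hG1 hT hTK hDN).trans ?_
    calc (K:ℝ) ^ 2 * G * ∫ y in (0:ℝ)..N, ‖deriv (poly N θ S c) y‖ ^ 2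
        ≤ (K:ℝ) ^ 2 * G * (40 * δ ^ 2 * (x * L ^ 2)) :=
          mul_le_mul_of_nonneg_left hB (by positivity)
      _ = (δ * G) ^ 2 * (40 * A * L ^ 2) := by
          rw [hA, hVdef]
          field_simp
      _ ≤ (L ^ E5) ^ 2 * (40 * A * L ^ 2) := by
          apply mul_le_mul_of_nonneg_right _ (by positivity)
          exact pow_le_pow_left₀ (by positivity) hδG 2
      _ = _ := by rw [hA', ← pow_mul, mul_comm E5 2]; ring
  have hI4 : A / L ^ W ≤ A' / L ^ (2 * (U + 2 * E5) + 4) := by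
    have : L ^ (2 * (U + 2 * E5) + 4) = L ^ (2 * U + 2 * E5 + 4) * L ^ (2 * E5) := by
      rw [← pow_add]; congr 1; ring
    rw [hA', this, mul_div_mul_right _ _ (hLp0 _).ne']
    apply div_le_div_of_nonneg_left hA0 (hLp0 _)
    exact pow_le_pow_right₀ hL1 (by omega)
  have hfin := final_num (U := U + 2 * E5) hA'0 hL ((hI1.trans hI3).trans hI4) hJ hsob
  refine hfin.trans (le_of_eq ?_)
  rw [hA', pow_add, mul_div_mul_right _ _ (hLp0 _).ne']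


/-- F7. Major arcs mean value with real arguments. -/
theorem major_genQ (E0 E2 E4 E5 U : ℕ) : ∃ (E3 x0 : ℕ), ∀ x : ℕ, x0 ≤ x →
    ∀ (N D G G1 K : ℕ) (δ θ : ℝ) (S : Finset ℤ) (c : ℤ → ℂ) (T : Finset ℕ) (p : ℕ → ℝ),
    8 * x ≤ N → N ≤ 100 * x → 1 ≤ D → D * G ≤ x → (x : ℝ) ≤ D * G * Real.log x ^ E0 →
    1 ≤ G1 → G1 ≤ G → (G : ℝ) ≤ G1 * Real.log x ^ E2 → 0 ≤ δ → δ ≤ 1 →
    δ * G ≤ Real.log x ^ E5 → (∀ h ∈ S, |((h : ℝ) + θ) / N| ≤ δ) →
    (N : ℝ) * ∑ h ∈ S, ‖c h‖ ^ 2 ≤ x * Real.log x ^ 2 →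
    (∀ h ∈ S, |((h : ℝ) + θ) / N| ≤ Real.log x ^ E3 / x →
      (N : ℝ) * ‖c h‖ ≤ x / Real.log x ^ (2 * E3)) →
    (∀ k ∈ T, (G1 : ℝ) ≤ p k ∧ p k ≤ G) → T.card ≤ K →
    (∀ ξ : ℝ, Real.log x ^ E4 ≤ |ξ| → |ξ| ≤ (x : ℝ) ^ 2 →
      ‖∑ k ∈ T, (((p k) ^ (-(1 / 2) : ℝ) : ℝ) : ℂ) * e (ξ * Real.log (p k))‖ ^ 2 ≤
        ((K : ℝ) ^ 2 / G) / Real.log x ^ (2 * U + 2 * E5 + 10)) →
    ∑ d ∈ Ioc D (2 * D), ‖∑ k ∈ T, poly N θ S c ((d : ℝ) * p k)‖ ^ 2 ≤
      x * ((K : ℝ) ^ 2 / G) / Real.log x ^ U := by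
  obtain ⟨C, hC, hcut⟩ := cutoff
  obtain ⟨C5, hC5, h5⟩ := MP.inv_sq_sum
  obtain ⟨x2, hx2⟩ := MP.log_pow_le (4 * (2 * (1 / 2 + C) ^ 2 + 800000))
    (E2 + 2 * U + 2 * E5 + 8)
  obtain ⟨x3, hx3⟩ := MP.log_large (max 15 (8 * (360000 * C ^ 2 + 2560000 * (C ^ 2 * C5))))
  refine ⟨5 * E4 + 3 * E0 + 4 * E2 + 2 * U + 2 * E5 + 20, max x2 (max x3 1), ?_⟩
  intro x hx N D G G1 K δ θ S c T p hN1 hN2 hD hDG hxDG hG1 hGG hGG1 hδ0 hδ1 hδG hδ hV hsm hT hTK hk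
  have hx2' : x2 ≤ x := (le_max_left _ _).trans hx
  have hx3' : x3 ≤ x := ((le_max_left _ _).trans (le_max_right _ _)).trans hx
  have hx' : 1 ≤ x := ((le_max_right _ _).trans (le_max_right _ _)).trans hx
  have hL := hx3 x hx3'
  have hL15 : 15 ≤ Real.log x := (le_max_left _ _).trans hL
  have hL2 := (le_max_right _ _).trans hL
  exact core_genQ hC hC5 hcut h5 rfl hL15 hL2 hx' (hx2 x hx2') hN1 hN2 hD hG1 hGG hDG hxDG hGG1
    hδ0 hδ1 hδG hδ hV hsm hT hTK hk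


end Pool.Agent.H469R2.FB
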